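import Pool.Agent.Y308.MS.Lowt

/-!
# Shift sets are F_sigma (MS-FSIG, helper308)
-/

set_option autoImplicit false

open Complex Metric Set Filter Topology
open scoped ComplexConjugate
open Pool.Agent.Results.MP_4c43cc_an.ShiftSet
open Pool.Agent.Y186.MS (cf S_FSIG)

namespace Pool.Agent.Y308.MS

lemma comp_diffOn {f : ℂ → ℂ} (hf : DifferentiableOn ℂ f (ball 0 1)) {w : ℂ} (hw : ‖w‖ < 1) :
    DifferentiableOn ℂ (fun z => f (mob w z)) (ball 0 1) := by
  intro z hz
  have hz : ‖z‖ < 1 := by simpa using hz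
  have h1 : mob w z ∈ ball (0:ℂ) 1 := by simpa using mob_norm_lt hw hz
  exact ((hf.differentiableAt (isOpen_ball.mem_nhds h1)).comp z
    (mob_diff hw hz.le)).differentiableWithinAt

lemma tc_sub {f g : ℂ → ℂ} (hf : DifferentiableOn ℂ f (ball 0 1))
    (hg : DifferentiableOn ℂ g (ball 0 1)) (m : ℕ) :
    taylorCoeff (fun z => f z - g z) m = taylorCoeff f m - taylorCoeff g m := by
  have h : ∀ {f : ℂ → ℂ}, DifferentiableOn ℂ f (ball 0 1) → ContDiffAt ℂ m f 0 := by
    intro f hf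
    exact (hf.analyticAt (isOpen_ball.mem_nhds (mem_ball_self one_pos))).contDiffAt
  unfold taylorCoeff
  rw [iteratedDeriv_fun_sub (h hf) (h hg)]
  ring

lemma mob_contOn : ContinuousOn (fun p : ℂ × ℂ => mob p.1 p.2) (ball 0 1 ×ˢ closedBall 0 1) := by
  unfold mob
  refine ContinuousOn.div (by fun_prop) ?_ fun p hp => ?_
  · exact (continuous_const.sub ((Complex.continuous_conj.comp continuous_fst).mul
      continuous_snd)).continuousOn
  · exact mob_den (by simpa using hp.1) (by simpa using hp.2)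

lemma cf_cont {f : ℂ → ℂ} (hf : DifferentiableOn ℂ f (ball 0 1)) (m : ℕ) :
    ContinuousOn (fun w => cf f w m) (ball 0 1) := by
  intro w0 hw0
  have hw0' : ‖w0‖ < 1 := by simpa using hw0
  obtain ⟨ρ, hρ0, hρ1⟩ := exists_between hw0'
  have hK : IsCompact (closedBall (0:ℂ) ρ ×ˢ closedBall (0:ℂ) (1 / 2)) :=
    (isCompact_closedBall _ _).prod (isCompact_closedBall _ _)
  have hc : ContinuousOn (fun p : ℂ × ℂ => f (mob p.1 p.2))
      (closedBall (0:ℂ) ρ ×ˢ closedBall (0:ℂ) (1 / 2)) := by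
    refine hf.continuousOn.comp (mob_contOn.mono ?_) ?_
    · rintro ⟨w, z⟩ ⟨hw, hz⟩
      simp only [mem_closedBall_zero_iff] at hw hz
      refine ⟨?_, ?_⟩
      · simp only [mem_ball_zero_iff]; linarith
      · simp only [mem_closedBall_zero_iff]; linarith
    · rintro ⟨w, z⟩ ⟨hw, hz⟩
      simp only [mem_closedBall_zero_iff] at hw hz
      simp only [mem_ball_zero_iff]
      exact mob_norm_lt (by linarith) (by linarith)
  have huc := hK.uniformContinuousOn_of_continuous hc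
  rw [Metric.uniformContinuousOn_iff] at huc
  refine ContinuousAt.continuousWithinAt ?_
  rw [Metric.continuousAt_iff]
  intro ε hε
  obtain ⟨δ, hδ, h⟩ := huc (ε / 2 ^ (m + 1)) (by positivity)
  refine ⟨min δ (ρ - ‖w0‖), lt_min hδ (by linarith), fun w hw => ?_⟩
  have hwδ : dist w w0 < δ := hw.trans_le (min_le_left _ _)
  have hwρ : ‖w‖ ≤ ρ := by
    have h1 : dist w w0 < ρ - ‖w0‖ := hw.trans_le (min_le_right _ _)
    rw [dist_eq_norm] at h1
    have h2 : ‖w‖ ≤ ‖w - w0‖ + ‖w0‖ := by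
      have := norm_add_le (w - w0) w0
      rwa [sub_add_cancel] at this
    linarith
  have hw1 : ‖w‖ < 1 := by linarith
  have hdw := comp_diffOn hf hw1
  have hdw0 := comp_diffOn hf hw0'
  rw [dist_eq_norm]
  unfold cf
  rw [← tc_sub hdw hdw0 m]
  have hdc : DiffContOnCl ℂ (fun z => f (mob w z) - f (mob w0 z)) (ball 0 (1 / 2)) :=
    (hdw.fun_sub hdw0).diffContOnCl_ball (closedBall_subset_ball (by norm_num))
  have hb : ∀ z ∈ sphere (0:ℂ) (1 / 2), ‖f (mob w z) - f (mob w0 z)‖ ≤ ε / 2 ^ (m + 1) := by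
    intro z hz
    have hz : ‖z‖ = 1 / 2 := by simpa using hz
    have h1 := h (w, z) ⟨by simpa using hwρ, by simpa using hz.le⟩ (w0, z)
      ⟨by simpa using hρ0.le, by simpa using hz.le⟩ (by
        rw [Prod.dist_eq]
        simpa using hwδ)
    rw [dist_eq_norm] at h1
    exact h1.le
  refine (tc_le (by norm_num) hdc hb m).trans_lt ?_
  have e : ε / 2 ^ (m + 1) / (1 / 2) ^ m = ε / 2 := by
    rw [one_div, inv_pow, div_inv_eq_mul, pow_succ]
    field_simp
  rw [e]
  linarith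

theorem t_FSIG : S_FSIG := by
  intro f hf
  have hopen : ∀ (N : ℕ) (S : Finset ℕ),
      IsOpen (ball (0:ℂ) 1 ∩ {w | (N : ℝ) < ∑ m ∈ S, ‖cf f w m‖}) := by
    intro N S
    have hc : ContinuousOn (fun w => ∑ m ∈ S, ‖cf f w m‖) (ball 0 1) :=
      continuousOn_finsetSum _ fun m _ => (cf_cont hf m).norm
    exact hc.isOpen_inter_preimage isOpen_ball isOpen_Ioi
  have e : ball (0:ℂ) 1 \ shiftSet f =
      ⋂ N : ℕ, ⋃ S : Finset ℕ, ball (0:ℂ) 1 ∩ {w | (N : ℝ) < ∑ m ∈ S, ‖cf f w m‖} := by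
    ext w
    simp only [mem_iInter, mem_iUnion, mem_inter_iff, mem_ofPred_eq]
    constructor
    · rintro ⟨hw, hns⟩ N
      by_contra hcon
      push Not at hcon
      refine hns ⟨hw, ?_⟩
      exact summable_of_sum_le (fun m => norm_nonneg _) (fun S => hcon S hw)
    · intro h
      obtain ⟨S0, hw, -⟩ := h 0
      refine ⟨hw, fun hs => ?_⟩
      obtain ⟨N, hN⟩ := exists_nat_ge (∑' m, ‖cf f w m‖)
      obtain ⟨S, -, hS⟩ := h N
      have hsum : Summable fun m => ‖cf f w m‖ := hs.2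
      have := hsum.sum_le_tsum S (fun m _ => norm_nonneg _)
      linarith
  rw [e]
  exact IsGδ.iInter_of_isOpen fun N => isOpen_iUnion fun S => hopen N S

end Pool.Agent.Y308.MS
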