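import Pool.Agent.Y186.MS.Stm

/-!
# Low and high coefficients (MS-LOWT, helper308)
-/

set_option autoImplicit false

open Complex Metric Set Filter Topology
open scoped ComplexConjugate
open Pool.Agent.Results.MP_4c43cc_an.ShiftSet
open Pool.Agent.Y186.MS (cf S_LOW S_TAIL)

namespace Pool.Agent.Y308.MS

lemma tc_le {f : ℂ → ℂ} {R C : ℝ} (hR : 0 < R) (hf : DiffContOnCl ℂ f (ball 0 R))
    (hC : ∀ z ∈ sphere (0 : ℂ) R, ‖f z‖ ≤ C) (m : ℕ) : ‖taylorCoeff f m‖ ≤ C / R ^ m := by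
  have h := Complex.norm_iteratedDeriv_le_of_forall_mem_sphere_norm_le m hR hf hC
  have hm : (0 : ℝ) < m.factorial := by exact_mod_cast m.factorial_pos
  unfold taylorCoeff
  rw [norm_div, Complex.norm_natCast, div_le_iff₀ hm]
  calc ‖iteratedDeriv m f 0‖ ≤ m.factorial * C / R ^ m := h
    _ = C / R ^ m * m.factorial := by ring

lemma pol_le {T : Finset ℕ} {a : ℕ → ℂ} {z : ℂ} {q : ℝ} (hz : ‖z‖ ≤ q) :
    ‖pol T a z‖ ≤ ∑ n ∈ T, ‖a n‖ * q ^ n := by
  unfold pol
  refine (norm_sum_le _ _).trans (Finset.sum_le_sum fun n _ => ?_)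
  rw [norm_mul, norm_pow]
  exact mul_le_mul_of_nonneg_left (pow_le_pow_left₀ (norm_nonneg _) hz n) (norm_nonneg _)

lemma mob_sq {w z : ℂ} {r : ℝ} (hr0 : 0 ≤ r) (hr : r < 1) (hw : ‖w‖ ≤ r) (hz : ‖z‖ = 1 / 2) :
    ‖mob w z‖ ^ 2 ≤ 1 - 3 * (1 - r ^ 2) / 16 := by
  have hw1 : ‖w‖ < 1 := hw.trans_lt hr
  have hd := mob_den hw1 (z := z) (by rw [hz]; norm_num)
  have hd0 : 0 < ‖1 - conj w * z‖ := norm_pos_iff.2 hd
  have h1 : normSq (1 - conj w * z) - normSq (z - w) = (1 - normSq w) * (1 - normSq z) := by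
    simp [normSq_apply]; ring
  rw [normSq_eq_norm_sq, normSq_eq_norm_sq, normSq_eq_norm_sq, normSq_eq_norm_sq, hz] at h1
  have h2 : ‖1 - conj w * z‖ ≤ 2 := by
    refine (norm_sub_le _ _).trans ?_
    rw [norm_mul, RCLike.norm_conj, hz, norm_one]
    linarith
  have h3 : ‖w‖ ^ 2 ≤ r ^ 2 := pow_le_pow_left₀ (norm_nonneg _) hw 2
  have h4 : r ^ 2 < 1 := by nlinarith
  unfold mob
  rw [norm_div, div_pow, div_le_iff₀ (by positivity)]
  have h5 : ‖1 - conj w * z‖ ^ 2 ≤ 4 := by nlinarith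
  nlinarith [mul_nonneg (show (0:ℝ) ≤ 1 - r ^ 2 by linarith) (show 0 ≤ 4 - ‖1 - conj w * z‖ ^ 2 by linarith)]

theorem t_LOW : S_LOW := by
  intro r0 hr0 M ε hε
  set r : ℝ := max r0 0 with hr
  have hr1 : r < 1 := max_lt hr0 one_pos
  have hr00 : 0 ≤ r := le_max_right _ _
  have h4 : r ^ 2 < 1 := by nlinarith
  set q : ℝ := Real.sqrt (1 - 3 * (1 - r ^ 2) / 16) with hq
  have hq0 : 0 ≤ q := Real.sqrt_nonneg _
  have hq1 : q < 1 := by
    rw [hq, Real.sqrt_lt' one_pos]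
    nlinarith
  set C : ℝ := ∑ m ∈ Finset.range M, 2 ^ m with hC
  have hC0 : 0 ≤ C := Finset.sum_nonneg fun m _ => by positivity
  obtain ⟨n0, hn0⟩ := exists_pow_lt_of_lt_one (show 0 < ε / (C + 1) by positivity) hq1
  refine ⟨n0, fun T a hT ha w hw => ?_⟩
  have hw' : ‖w‖ ≤ r := hw.trans (le_max_left _ _)
  have hw1 : ‖w‖ < 1 := hw'.trans_lt hr1
  have hdc : DiffContOnCl ℂ (fun z => pol T a (mob w z)) (ball 0 (1 / 2)) :=
    (pol_comp_diff T a hw1).mono (ball_subset_ball (by norm_num))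
  have hb : ∀ z ∈ sphere (0 : ℂ) (1 / 2), ‖pol T a (mob w z)‖ ≤ q ^ n0 := by
    intro z hz
    have hz : ‖z‖ = 1 / 2 := by simpa using hz
    have h5 : ‖mob w z‖ ≤ q := by
      rw [hq]
      exact Real.le_sqrt_of_sq_le (mob_sq hr00 hr1 hw' hz)
    refine (pol_le h5).trans ?_
    calc ∑ n ∈ T, ‖a n‖ * q ^ n ≤ ∑ n ∈ T, ‖a n‖ * q ^ n0 :=
          Finset.sum_le_sum fun n hn => mul_le_mul_of_nonneg_left
            (pow_le_pow_of_le_one hq0 hq1.le (hT n hn)) (norm_nonneg _)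
      _ = q ^ n0 := by rw [← Finset.sum_mul, ha, one_mul]
  calc ∑ m ∈ Finset.range M, ‖cf (pol T a) w m‖
      ≤ ∑ m ∈ Finset.range M, q ^ n0 * 2 ^ m := by
        refine Finset.sum_le_sum fun m _ => ?_
        have := tc_le (by norm_num) hdc hb m
        unfold cf
        refine this.trans (le_of_eq ?_)
        rw [one_div, inv_pow, div_inv_eq_mul]
    _ = q ^ n0 * C := by rw [← Finset.mul_sum]
    _ ≤ ε / (C + 1) * C := mul_le_mul_of_nonneg_right hn0.le hC0
    _ ≤ ε := by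
        rw [div_mul_eq_mul_div, div_le_iff₀ (by positivity)]
        nlinarith

theorem t_TAIL : S_TAIL := by
  intro T a r0 hr0 ε hε
  set r : ℝ := max r0 0 with hr
  have hr1 : r < 1 := max_lt hr0 one_pos
  have hr00 : 0 ≤ r := le_max_right _ _
  set s : ℝ := 2 / (1 + r) with hs
  have hs1 : 1 < s := by
    rw [hs, lt_div_iff₀ (by linarith)]
    linarith
  have hs0 : 0 < s := by linarith
  have hrs : r * s < 1 := by
    rw [hs, mul_div_assoc', div_lt_one (by linarith)]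
    linarith
  set B : ℝ := (s + 1) / (1 - r * s) with hB
  set C : ℝ := ∑ n ∈ T, ‖a n‖ * B ^ n with hC
  have hden : ∀ w z : ℂ, ‖w‖ ≤ r → ‖z‖ ≤ s → 1 - r * s ≤ ‖1 - conj w * z‖ := by
    intro w z hw hz
    have h1 : ‖conj w * z‖ ≤ r * s := by
      rw [norm_mul, RCLike.norm_conj]
      exact mul_le_mul hw hz (norm_nonneg _) hr00
    have h2 := norm_sub_norm_le (1 : ℂ) (conj w * z)
    rw [norm_one] at h2
    linarith
  have hsum : Summable (fun m : ℕ => C * (1 / s) ^ m) :=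
    (summable_geometric_of_lt_one (by positivity) (by rw [div_lt_one hs0]; exact hs1)).mul_left C
  obtain ⟨F, hF⟩ := (summable_iff_vanishing_norm.1 hsum) ε hε
  refine ⟨F.sup id + 1, fun w hw S hS => ?_⟩
  have hw' : ‖w‖ ≤ r := hw.trans (le_max_left _ _)
  have hdis : Disjoint S F := by
    rw [Finset.disjoint_left]
    intro m hm hmF
    have h1 := hS m hm
    have h2 : m ≤ F.sup id := Finset.le_sup (f := id) hmF
    omega
  have hdc : DiffContOnCl ℂ (fun z => pol T a (mob w z)) (ball 0 s) := by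
    refine DifferentiableOn.diffContOnCl (fun z hz => ?_)
    rw [closure_ball _ hs0.ne'] at hz
    have hz : ‖z‖ ≤ s := by simpa using hz
    have hd : 1 - conj w * z ≠ 0 := by
      intro h0
      have := hden w z hw' hz
      rw [h0, norm_zero] at this
      linarith
    have hm : DifferentiableAt ℂ (mob w) z := by
      unfold mob
      exact (by fun_prop : DifferentiableAt ℂ (fun z => z - w) z).div (by fun_prop) hd
    unfold pol
    exact DifferentiableAt.differentiableWithinAt (by fun_prop)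
  have hb : ∀ z ∈ sphere (0 : ℂ) s, ‖pol T a (mob w z)‖ ≤ C := by
    intro z hz
    have hz : ‖z‖ = s := by simpa using hz
    refine pol_le ?_
    have h1 := hden w z hw' hz.le
    unfold mob
    rw [norm_div, hB]
    refine div_le_div₀ (by linarith) ?_ (by linarith) h1
    refine (norm_sub_le _ _).trans ?_
    rw [hz]
    linarith
  have h2 := hF S hdis
  refine le_trans ?_ h2.le
  refine le_trans ?_ (le_abs_self _)
  refine Finset.sum_le_sum fun m _ => ?_
  refine (tc_le hs0 hdc hb m).trans (le_of_eq ?_)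
  rw [one_div, inv_pow, div_eq_mul_inv]

end Pool.Agent.Y308.MS
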